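import Mathlib

/-!
Hua systems: the elementary consequences of the three axioms.
-/

set_option autoImplicit false

namespace Pool.Agent.HuaTop84

/-- The elementary data extracted from a Hua system: a base point, an inversion, the maps `U`,
and their basic identities. -/
structure HD (A : Type) [AddCommGroup A] where
  one : A
  inv : A → A
  U : A → (A →+ A)
  one_ne : one ≠ 0
  inv_zero : inv 0 = 0
  inv_ne : ∀ x, x ≠ 0 → inv x ≠ 0
  inv_inv : ∀ x, inv (inv x) = x
  inv_neg : ∀ x, inv (-x) = - inv x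
  U_zero : U 0 = 0
  U_one : ∀ x, U one x = x
  U_inv_left : ∀ w x, w ≠ 0 → U (inv w) (U w x) = x
  U_inv_right : ∀ w x, w ≠ 0 → U w (U (inv w) x) = x
  U_self : ∀ w, U w (inv w) = w
  U_U : ∀ c b x, U (U c b) x = U c (U b (U c x))
  inv_U : ∀ c x, c ≠ 0 → inv (U c x) = U (inv c) (inv x)
  hua : ∀ a b, a ≠ 0 → b ≠ 0 → a ≠ b → U a (inv (a - b)) = a - inv (inv a - inv b)

section FromAxioms

variable {A : Type} [AddCommGroup A] (j : A → Option A → Option A)

/-- The map induced on elements. -/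
def JJ (a b : A) : A := (j a (some b)).getD 0

variable (h1 : ∀ a : A, a ≠ 0 → (∀ x : Option A, j a (j a x) = x) ∧ j a (some a) = some a ∧
      j a (some (-a)) = some (-a) ∧ j a (some 0) = none)
  (h2 : ∀ a : A, a ≠ 0 → ∀ x : Option A,
      Option.map (fun b => a - b) (j a (Option.map (fun b => a - b)
        (j a (Option.map (fun b => a - b) (j a x))))) = x)
  (h3 : ∀ a b : A, a ≠ 0 → b ≠ 0 → ∃ f : A →+ A, ∀ x : A, j a (j b (some x)) = some (f x))

include h1 in
theorem j_none {a : A} (ha : a ≠ 0) : j a none = some 0 := by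
  obtain ⟨hi, -, -, h0⟩ := h1 a ha
  have := hi (some 0)
  rwa [h0] at this

include h1 in
theorem j_some {a b : A} (ha : a ≠ 0) (hb : b ≠ 0) : j a (some b) = some (JJ j a b) := by
  obtain ⟨hi, -, -, h0⟩ := h1 a ha
  rcases h : j a (some b) with _ | c
  · exfalso
    have h' := hi (some b)
    rw [h, j_none j h1 ha] at h'
    exact hb (Option.some.inj h').symm
  · simp [JJ, h]

include h1 in
theorem JJ_ne {a b : A} (ha : a ≠ 0) (hb : b ≠ 0) : JJ j a b ≠ 0 := by
  intro h
  have h' := j_some j h1 ha hb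
  rw [h] at h'
  obtain ⟨hi, -, -, h0⟩ := h1 a ha
  have := hi (some b)
  rw [h', h0] at this
  simp at this

include h1 in
theorem JJ_JJ {a b : A} (ha : a ≠ 0) (hb : b ≠ 0) : JJ j a (JJ j a b) = b := by
  obtain ⟨hi, -, -, h0⟩ := h1 a ha
  have := hi (some b)
  rw [j_some j h1 ha hb, j_some j h1 ha (JJ_ne j h1 ha hb)] at this
  exact Option.some.inj this

include h1 in
theorem JJ_self {a : A} (ha : a ≠ 0) : JJ j a a = a := by
  obtain ⟨hi, h, -, h0⟩ := h1 a ha
  rw [j_some j h1 ha ha] at h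
  exact Option.some.inj h

include h1 in
theorem JJ_zero {a : A} (ha : a ≠ 0) : JJ j a 0 = 0 := by
  obtain ⟨hi, h, -, h0⟩ := h1 a ha
  simp [JJ, h0]

include h1 h2 in
theorem JJ_hua {a b : A} (ha : a ≠ 0) (hb : b ≠ 0) (hab : b ≠ a) :
    JJ j a (a - JJ j a b) = a - JJ j a (a - b) := by
  have hab' : a - b ≠ 0 := sub_ne_zero.mpr (Ne.symm hab)
  have hne : a - JJ j a b ≠ 0 := by
    intro h
    apply hab
    have h' : JJ j a b = a := (sub_eq_zero.mp h).symm
    have h4 := JJ_JJ j h1 ha hb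
    rw [h', JJ_self j h1 ha] at h4
    exact h4.symm
  have key := h2 a ha (some b)
  rw [j_some j h1 ha hb] at key
  simp only [Option.map_some] at key
  rw [j_some j h1 ha hne] at key
  simp only [Option.map_some] at key
  -- key : map s (j (some (a - J (a - J b)))) = some b
  have key2 : j a (some (a - JJ j a (a - JJ j a b))) = some (a - b) := by
    rcases h : j a (some (a - JJ j a (a - JJ j a b))) with _ | c
    · rw [h] at key; simp at key
    · rw [h] at key
      simp only [Option.map_some, Option.some.injEq] at key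
      rw [← key]
      simp
  obtain ⟨hi, -, -, -⟩ := h1 a ha
  have key3 := hi (some (a - JJ j a (a - JJ j a b)))
  rw [key2, j_some j h1 ha hab'] at key3
  have key4 := Option.some.inj key3
  rw [key4]
  abel

/-- The additive map attached to two nonzero elements. -/
noncomputable def hh (a b : A) : A →+ A :=
  open Classical in
  if h : a ≠ 0 ∧ b ≠ 0 then (h3 a b h.1 h.2).choose else 0

include h1 in
theorem hh_apply {a b x : A} (ha : a ≠ 0) (hb : b ≠ 0) :
    hh j h3 a b x = JJ j a (JJ j b x) := by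
  have hspec := (h3 a b ha hb).choose_spec x
  have hdef : hh j h3 a b = (h3 a b ha hb).choose := by
    unfold hh
    rw [dif_pos ⟨ha, hb⟩]
  rw [hdef]
  by_cases hx : x = 0
  · subst hx
    rw [JJ_zero j h1 hb, JJ_zero j h1 ha]
    simp
  · rw [j_some j h1 hb hx, j_some j h1 ha (JJ_ne j h1 hb hx)] at hspec
    exact (Option.some.inj hspec).symm

include h1 h3 in
theorem JJ_neg {a b : A} (ha : a ≠ 0) : JJ j a (-b) = - JJ j a b := by
  by_cases hb : b = 0
  · subst hb; simp [JJ_zero j h1 ha]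
  have hnb : -b ≠ 0 := neg_ne_zero.mpr hb
  have e1 : hh j h3 a b (-b) = JJ j a (-b) := by
    rw [hh_apply j h1 h3 ha hb]
    congr 1
    obtain ⟨hi, -, h, -⟩ := h1 b hb
    rw [j_some j h1 hb hnb] at h
    exact Option.some.inj h
  have e2 : hh j h3 a b b = JJ j a b := by
    rw [hh_apply j h1 h3 ha hb, JJ_self j h1 hb]
  rw [← e1, map_neg, e2]

include h1 in
theorem JJ_JJ' {a b : A} (ha : a ≠ 0) : JJ j a (JJ j a b) = b := by
  by_cases hb : b = 0
  · subst hb; rw [JJ_zero j h1 ha, JJ_zero j h1 ha]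
  · exact JJ_JJ j h1 ha hb

include h1 h2 h3 in
/-- J a (a - b) = a - inv (inv a - inv b) with respect to the base point e. -/
theorem JJ_hua2 {e a b : A} (he : e ≠ 0) (ha : a ≠ 0) (hb : b ≠ 0) (hab : a ≠ b) :
    JJ j a (a - b) = a - JJ j e (JJ j e a - JJ j e b) := by
  have hJ : JJ j a b ≠ 0 := JJ_ne j h1 ha hb
  have hJa : JJ j a b ≠ a := by
    intro h
    apply hab
    have h4 := JJ_JJ j h1 ha hb
    rw [h, JJ_self j h1 ha] at h4
    exact h4
  have key := JJ_hua j h1 h2 ha hJ hJa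
  rw [JJ_JJ j h1 ha hb] at key
  -- key : J a (a - b) = a - J a (a - J a b)
  rw [key]
  congr 1
  have e1 : hh j h3 e a (a - JJ j a b) = JJ j e a - JJ j e b := by
    rw [map_sub, hh_apply j h1 h3 he ha, hh_apply j h1 h3 he ha, JJ_self j h1 ha,
      JJ_JJ j h1 ha hb]
  rw [← e1, hh_apply j h1 h3 he ha, JJ_JJ' j h1 he]

include h1 h2 h3 in
/-- Equivariance of the maps `J`. -/
theorem JJ_equiv {e : A} (he : e ≠ 0) (h h' : A →+ A)
    (hinj : ∀ x, h x = 0 → x = 0)
    (e1 : ∀ x, JJ j e (h x) = h' (JJ j e x)) (e2 : ∀ x, JJ j e (h' x) = h (JJ j e x))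
    {a : A} (ha : a ≠ 0) (b : A) : JJ j (h a) (h b) = h (JJ j a b) := by
  have hha : h a ≠ 0 := fun h0 => ha (hinj a h0)
  by_cases hb : b = 0
  · subst hb; rw [map_zero, JJ_zero j h1 hha, JJ_zero j h1 ha, map_zero]
  by_cases hab : a = b
  · subst hab; rw [JJ_self j h1 hha, JJ_self j h1 ha]
  have hc : a - b ≠ 0 := sub_ne_zero.mpr hab
  have hac : a ≠ a - b := by
    intro h0
    apply hb
    have : b = a - (a - b) := by abel
    rw [this, ← h0, sub_self]
  have f1 := JJ_hua2 j h1 h2 h3 he ha hc hac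
  have hhc : h (a - b) ≠ 0 := fun h0 => hc (hinj _ h0)
  have hhac : h a ≠ h (a - b) := by
    intro h0
    apply hac
    have h5 : h (a - (a - b)) = 0 := by rw [map_sub, h0, sub_self]
    exact sub_eq_zero.mp (hinj _ h5)
  have f2 := JJ_hua2 j h1 h2 h3 he hha hhc hhac
  have g1 : a - (a - b) = b := by abel
  have g2 : h a - h (a - b) = h b := by rw [← map_sub, g1]
  rw [g1] at f1
  rw [g2] at f2
  rw [f2, f1, e1, e1, ← map_sub, e2, ← map_sub]

include h1 in
theorem JJ_hh1 {e c : A} (he : e ≠ 0) (hc : c ≠ 0) (x : A) :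
    JJ j e (hh j h3 c e x) = hh j h3 e c (JJ j e x) := by
  rw [hh_apply j h1 h3 hc he, hh_apply j h1 h3 he hc]

include h1 in
theorem JJ_hh2 {e c : A} (he : e ≠ 0) (hc : c ≠ 0) (x : A) :
    JJ j e (hh j h3 e c x) = hh j h3 c e (JJ j e x) := by
  rw [hh_apply j h1 h3 hc he, hh_apply j h1 h3 he hc, JJ_JJ' j h1 he, JJ_JJ' j h1 he]

include h1 in
theorem hh_hh {a b : A} (ha : a ≠ 0) (hb : b ≠ 0) (x : A) :
    hh j h3 a b (hh j h3 b a x) = x := by
  rw [hh_apply j h1 h3 ha hb, hh_apply j h1 h3 hb ha, JJ_JJ' j h1 hb, JJ_JJ' j h1 ha]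

include h1 in
theorem hh_inj {a b : A} (ha : a ≠ 0) (hb : b ≠ 0) (x : A) (hx : hh j h3 a b x = 0) : x = 0 := by
  rw [← hh_hh j h1 h3 hb ha x, hx, map_zero]

/-- The elementary data of a Hua system with base point `e`. -/
noncomputable def toHD (e : A) (he : e ≠ 0) : HD A where
  one := e
  inv := JJ j e
  U := fun a => hh j h3 a e
  one_ne := he
  inv_zero := JJ_zero j h1 he
  inv_ne := fun x hx => JJ_ne j h1 he hx
  inv_inv := fun x => JJ_JJ' j h1 he
  inv_neg := fun x => JJ_neg j h1 h3 he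
  U_zero := by
    unfold hh
    rw [dif_neg]
    rintro ⟨h, -⟩
    exact h rfl
  U_one := fun x => by rw [hh_apply j h1 h3 he he, JJ_JJ' j h1 he]
  U_inv_left := by
    intro w x hw
    have hiw : JJ j e w ≠ 0 := JJ_ne j h1 he hw
    have hV : hh j h3 e w w = JJ j e w := by
      rw [hh_apply j h1 h3 he hw, JJ_self j h1 hw]
    have key : ∀ x, hh j h3 (JJ j e w) e x = hh j h3 e w x := by
      intro x
      rw [hh_apply j h1 h3 hiw he]
      have h5 := JJ_equiv j h1 h2 h3 he (hh j h3 e w) (hh j h3 w e)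
        (fun x hx => hh_inj j h1 h3 he hw x hx)
        (fun x => JJ_hh2 j h1 h3 he hw x) (fun x => JJ_hh1 j h1 h3 he hw x) hw
        (hh j h3 w e (JJ j e x))
      rw [hV, hh_hh j h1 h3 he hw] at h5
      rw [h5, hh_apply j h1 h3 hw he, JJ_JJ' j h1 he, JJ_JJ' j h1 hw]
    change hh j h3 (JJ j e w) e (hh j h3 w e x) = x
    rw [key, hh_hh j h1 h3 he hw]
  U_inv_right := by
    intro w x hw
    have hiw : JJ j e w ≠ 0 := JJ_ne j h1 he hw
    have hV : hh j h3 e w w = JJ j e w := by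
      rw [hh_apply j h1 h3 he hw, JJ_self j h1 hw]
    have key : ∀ x, hh j h3 (JJ j e w) e x = hh j h3 e w x := by
      intro x
      rw [hh_apply j h1 h3 hiw he]
      have h5 := JJ_equiv j h1 h2 h3 he (hh j h3 e w) (hh j h3 w e)
        (fun x hx => hh_inj j h1 h3 he hw x hx)
        (fun x => JJ_hh2 j h1 h3 he hw x) (fun x => JJ_hh1 j h1 h3 he hw x) hw
        (hh j h3 w e (JJ j e x))
      rw [hV, hh_hh j h1 h3 he hw] at h5
      rw [h5, hh_apply j h1 h3 hw he, JJ_JJ' j h1 he, JJ_JJ' j h1 hw]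
    change hh j h3 w e (hh j h3 (JJ j e w) e x) = x
    rw [key, hh_hh j h1 h3 hw he]
  U_self := by
    intro w
    by_cases hw : w = 0
    · subst hw
      change hh j h3 0 e (JJ j e 0) = 0
      rw [JJ_zero j h1 he, map_zero]
    · change hh j h3 w e (JJ j e w) = w
      rw [hh_apply j h1 h3 hw he, JJ_JJ' j h1 he, JJ_self j h1 hw]
  U_U := by
    intro c b x
    change hh j h3 (hh j h3 c e b) e x = hh j h3 c e (hh j h3 b e (hh j h3 c e x))
    have h0 : ∀ y, hh j h3 0 e y = 0 := by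
      intro y
      unfold hh
      rw [dif_neg]
      · rfl
      · rintro ⟨h, -⟩
        exact h rfl
    by_cases hc : c = 0
    · subst hc; rw [h0, h0, h0]
    by_cases hb : b = 0
    · subst hb; rw [map_zero, h0, h0, map_zero]
    have hcb : hh j h3 c e b ≠ 0 := fun h => hb (hh_inj j h1 h3 hc he b h)
    have h5 := JJ_equiv j h1 h2 h3 he (hh j h3 c e) (hh j h3 e c)
        (fun x hx => hh_inj j h1 h3 hc he x hx)
        (fun x => JJ_hh1 j h1 h3 he hc x) (fun x => JJ_hh2 j h1 h3 he hc x) hb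
        (JJ j e (hh j h3 c e x))
    rw [hh_apply j h1 h3 hcb he, hh_apply j h1 h3 hb he, ← h5]
    congr 1
    rw [JJ_hh1 j h1 h3 he hc, hh_hh j h1 h3 hc he]
  inv_U := by
    intro c x hc
    have hiw : JJ j e c ≠ 0 := JJ_ne j h1 he hc
    have hV : hh j h3 e c c = JJ j e c := by
      rw [hh_apply j h1 h3 he hc, JJ_self j h1 hc]
    have key : ∀ x, hh j h3 (JJ j e c) e x = hh j h3 e c x := by
      intro x
      rw [hh_apply j h1 h3 hiw he]
      have h5 := JJ_equiv j h1 h2 h3 he (hh j h3 e c) (hh j h3 c e)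
        (fun x hx => hh_inj j h1 h3 he hc x hx)
        (fun x => JJ_hh2 j h1 h3 he hc x) (fun x => JJ_hh1 j h1 h3 he hc x) hc
        (hh j h3 c e (JJ j e x))
      rw [hV, hh_hh j h1 h3 he hc] at h5
      rw [h5, hh_apply j h1 h3 hc he, JJ_JJ' j h1 he, JJ_JJ' j h1 hc]
    change JJ j e (hh j h3 c e x) = hh j h3 (JJ j e c) e (JJ j e x)
    rw [key, JJ_hh1 j h1 h3 he hc]
  hua := by
    intro a b ha hb hab
    change hh j h3 a e (JJ j e (a - b)) = a - JJ j e (JJ j e a - JJ j e b)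
    rw [hh_apply j h1 h3 ha he, JJ_JJ' j h1 he]
    exact JJ_hua2 j h1 h2 h3 he ha hb hab

end FromAxioms

end Pool.Agent.HuaTop84
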