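import Mathlib
import Pool.Agent.HuaTop84.Basic

/-!
The limit argument: a Hua system with a suitable topology has biadditive polarisation.
-/

set_option autoImplicit false

open Filter Topology

namespace Pool.Agent.HuaTop84

namespace HD

variable {A : Type} [AddCommGroup A] (H : HD A)

theorem inv_ne_iff {x : A} : H.inv x ≠ 0 ↔ x ≠ 0 := by
  constructor
  · intro h h0
    apply h
    rw [h0, H.inv_zero]
  · exact H.inv_ne x

theorem U_inj {w x : A} (hw : w ≠ 0) (h : H.U w x = 0) : x = 0 := by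
  rw [← H.U_inv_left w x hw, h, map_zero]

theorem U_inj' {w x y : A} (hw : w ≠ 0) (h : H.U w x = H.U w y) : x = y := by
  rw [← H.U_inv_left w x hw, h, H.U_inv_left w y hw]

/-- First form of the Hua identity. -/
theorem inv_add (w v : A) (hw : w ≠ 0) (hv : v ≠ 0) (hwv : w + v ≠ 0) :
    H.inv (w + v) = H.inv w - H.U (H.inv w) (H.inv (H.inv w + H.inv v)) := by
  have hw' := H.inv_ne w hw
  have hv' := H.inv_ne v hv
  have hne : H.inv w ≠ - H.inv v := by
    intro h
    apply hwv
    have h1 : w = -v := by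
      rw [← H.inv_inv w, h, H.inv_neg, H.inv_inv]
    rw [h1]; abel
  have key := H.hua (H.inv w) (-H.inv v) hw' (neg_ne_zero.mpr hv') hne
  rw [H.inv_neg, H.inv_inv, H.inv_inv, sub_neg_eq_add, sub_neg_eq_add] at key
  rw [key]
  abel

/-- Second order expansion of the inversion, exact form. -/
theorem inv_add2 (w v : A) (hw : w ≠ 0) (hwv : w + v ≠ 0) :
    H.inv (w + v) = H.inv w - H.U (H.inv w) v + H.U (H.inv w) (H.U v (H.inv (w + v))) := by
  by_cases hv : v = 0
  · subst hv
    rw [map_zero, H.U_zero]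
    simp
  have hw' := H.inv_ne w hw
  have hv' := H.inv_ne v hv
  have hvw : v + w ≠ 0 := by rwa [add_comm]
  have hne : H.inv v + H.inv w ≠ 0 := by
    intro h
    apply hwv
    have h1 : H.inv w = - H.inv v := by
      rw [eq_neg_iff_add_eq_zero, add_comm]; exact h
    have h2 : w = -v := by
      rw [← H.inv_inv w, h1, H.inv_neg, H.inv_inv]
    rw [h2]; abel
  have e1 := H.inv_add w v hw hv hwv
  have e2 := H.inv_add (H.inv v) (H.inv w) hv' hw' hne
  rw [H.inv_inv, H.inv_inv, add_comm v w] at e2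
  have e3 : H.inv (H.inv w + H.inv v) = v - H.U v (H.inv (w + v)) := by
    rw [add_comm]; exact e2
  rw [e3, map_sub] at e1
  calc H.inv (w + v) = H.inv w - (H.U (H.inv w) v - H.U (H.inv w) (H.U v (H.inv (w + v)))) := e1
    _ = _ := by abel

theorem U_formula (a z : A) (ha : a ≠ 0) (hz : z ≠ 0) (haz : a ≠ H.inv z) :
    H.U a z = a - H.inv (H.inv a - H.inv (a - H.inv z)) := by
  have hz' := H.inv_ne z hz
  have hb : a - H.inv z ≠ 0 := sub_ne_zero.mpr haz
  have hab : a ≠ a - H.inv z := by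
    intro h
    apply hz'
    have : H.inv z = a - (a - H.inv z) := by abel
    rw [this, ← h, sub_self]
  have key := H.hua a (a - H.inv z) ha hb hab
  have e : a - (a - H.inv z) = H.inv z := by abel
  rw [e, H.inv_inv] at key
  exact key

/-- Polarisation. -/
def Q (a b x : A) : A := H.U (a + b) x - H.U a x - H.U b x

theorem Q_comm (a b x : A) : H.Q a b x = H.Q b a x := by
  unfold Q
  rw [add_comm a b]
  abel

section Scalars

variable {K : Type} [Field K] [Module K A]

/-- Compatibility with scalars. -/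
structure Scal (K : Type) [Field K] [Module K A] : Prop where
  inv_smul : ∀ (t : K) (x : A), t ≠ 0 → H.inv (t • x) = t⁻¹ • H.inv x
  U_smul : ∀ (a : A) (t : K) (x : A), H.U a (t • x) = t • H.U a x

variable {H} (S : H.Scal K)

include S in
theorem Scal.U_smul_left (t : K) (a x : A) : H.U (t • a) x = (t * t) • H.U a x := by
  by_cases ht : t = 0
  · subst ht; simp [H.U_zero]
  by_cases ha : a = 0
  · subst ha; simp [H.U_zero]
  have hta : t • a ≠ 0 := smul_ne_zero ht ha
  by_cases hx : x = 0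
  · subst hx; simp
  by_cases hxa : x = H.inv a
  · subst hxa
    have h1 : H.U (t • a) (H.inv (t • a)) = t • a := H.U_self _
    rw [S.inv_smul t a ht, S.U_smul] at h1
    have h2 : H.U (t • a) (H.inv a) = t • (t⁻¹ • H.U (t • a) (H.inv a)) := by
      rw [smul_smul, mul_inv_cancel₀ ht, one_smul]
    rw [h2, h1, H.U_self, smul_smul]
  -- general case
  set b := a - H.inv x with hb
  have hx' := H.inv_ne x hx
  have hb0 : b ≠ 0 := by
    intro h
    apply hxa
    have : a = H.inv x := sub_eq_zero.mp h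
    rw [this, H.inv_inv]
  have hab : a ≠ b := by
    intro h
    apply hx'
    have : H.inv x = a - b := by rw [hb]; abel
    rw [this, ← h, sub_self]
  have hx2 : x = H.inv (a - b) := by
    have : a - b = H.inv x := by rw [hb]; abel
    rw [this, H.inv_inv]
  have htb : t • b ≠ 0 := smul_ne_zero ht hb0
  have htab : t • a ≠ t • b := by
    intro h
    apply hab
    have h3 := congrArg (fun z => t⁻¹ • z) h
    simpa [smul_smul, inv_mul_cancel₀ ht] using h3
  have k1 := H.hua a b ha hb0 hab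
  have k2 := H.hua (t • a) (t • b) hta htb htab
  rw [← smul_sub, S.inv_smul t _ ht, S.inv_smul t _ ht, S.inv_smul t _ ht, ← smul_sub,
    S.inv_smul t⁻¹ _ (inv_ne_zero ht), _root_.inv_inv t, ← smul_sub, ← k1, S.U_smul, ← hx2] at k2
  -- k2 : t⁻¹ • U (t a) x = t • U a x
  have k3 := congrArg (fun z => t • z) k2
  simp only [smul_smul, mul_inv_cancel₀ ht, one_smul] at k3
  exact k3

include S in
/-- The key identity. -/
theorem Scal.key (w y y' : A) (t : K) (ht : t ≠ 0) (hw : w ≠ 0) (h1 : w + t • y ≠ 0)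
    (h2 : w + t • y + t • y' ≠ 0) :
    H.U (H.inv (w + t • y)) y' - H.U (H.inv w) y' =
      t • (H.U (H.inv (w + t • y)) (H.U y' (H.inv (w + t • y + t • y'))) +
        H.U (H.inv w) (H.U y (H.inv (w + t • y))) -
        H.U (H.inv w) (H.U (y + y') (H.inv (w + t • y + t • y')))) := by
  have hsum : w + t • (y + y') = w + t • y + t • y' := by rw [smul_add, add_assoc]
  have e1 := H.inv_add2 w (t • (y + y')) hw (by rw [hsum]; exact h2)
  rw [hsum] at e1
  have e2 := H.inv_add2 (w + t • y) (t • y') h1 h2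
  have e3 := H.inv_add2 w (t • y) hw h1
  rw [S.U_smul_left, S.U_smul, S.U_smul] at e1 e2 e3
  set p := H.inv (w + t • y + t • y') with hp
  set iw := H.inv w
  set iwt := H.inv (w + t • y) with hiwt
  -- combine
  have e4 : t • (H.U iwt y' - H.U iw y') =
      (t * t) • (H.U iwt (H.U y' p) + H.U iw (H.U y iwt) - H.U iw (H.U (y + y') p)) := by
    have f1 : t • H.U iwt y' = iwt - p + (t * t) • H.U iwt (H.U y' p) := by
      calc t • H.U iwt y' = iwt - (iwt - t • H.U iwt y' + (t * t) • H.U iwt (H.U y' p)) +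
            (t * t) • H.U iwt (H.U y' p) := by abel
        _ = _ := by rw [← e2]
    have f2 : iwt - p = t • H.U iw y' + (t * t) • H.U iw (H.U y iwt) -
        (t * t) • H.U iw (H.U (y + y') p) := by
      have g1 : p = iw - t • (H.U iw y + H.U iw y') + (t * t) • H.U iw (H.U (y + y') p) := by
        rw [← map_add]; exact e1
      calc iwt - p = (iw - t • H.U iw y + (t * t) • H.U iw (H.U y iwt)) -
            (iw - t • (H.U iw y + H.U iw y') + (t * t) • H.U iw (H.U (y + y') p)) := by
            rw [← g1, ← e3]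
        _ = _ := by rw [smul_add]; abel
    rw [smul_sub, f1, f2, smul_sub, smul_add]
    abel
  have e5 := congrArg (fun z => t⁻¹ • z) e4
  simp only [smul_smul, inv_mul_cancel₀ ht, one_smul] at e5
  rw [e5]
  congr 1
  field_simp

end Scalars

section Topological

variable {K : Type} [Field K] [Module K A] {H} (S : H.Scal K)
variable [TopologicalSpace A] [IsTopologicalAddGroup A] [T2Space A] [ContinuousConstSMul K A]
variable (hc : ContinuousOn H.inv {0}ᶜ)
variable (l : Filter K) [l.NeBot] (hl0 : ∀ᶠ t in l, t ≠ 0)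
  (hl : ∀ x : A, Tendsto (fun t : K => t • x) l (𝓝 0))

include hc in
theorem inv_contAt {x : A} (hx : x ≠ 0) : ContinuousAt H.inv x :=
  hc.continuousAt (isOpen_compl_singleton.mem_nhds hx)

include H hl0 hl in
theorem exists_avoid' (s : Finset A) : ∃ t : K, t • H.one ∉ s := by
  classical
  have hx : H.one ≠ 0 := H.one_ne
  have h : ∀ c : A, ∀ᶠ t in l, t • H.one ≠ c := by
    intro c
    by_cases hc0 : c = 0
    · filter_upwards [hl0] with t ht
      rw [hc0]
      exact smul_ne_zero ht hx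
    · exact (hl H.one).eventually_ne (Ne.symm hc0)
  have h' : ∀ᶠ t in l, ∀ c ∈ s, t • H.one ≠ c := by
    rw [Filter.eventually_all_finset]
    intro c _
    exact h c
  obtain ⟨t, ht⟩ := h'.exists
  exact ⟨t, fun hmem => ht _ hmem rfl⟩

include H hl0 hl in
theorem exists_avoid (s : Finset A) : ∃ z : A, z ∉ s := by
  obtain ⟨t, ht⟩ := exists_avoid' (H := H) l hl0 hl s
  exact ⟨_, ht⟩

include H hl0 hl in
theorem infinite_of_tendsto : Infinite K := by
  classical
  by_contra hK
  rw [not_infinite_iff_finite] at hK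
  haveI := Fintype.ofFinite K
  obtain ⟨t, ht⟩ := exists_avoid' (H := H) l hl0 hl (Finset.univ.image (fun t : K => t • H.one))
  exact ht (Finset.mem_image.mpr ⟨t, Finset.mem_univ t, rfl⟩)

include hc in
theorem U_contAt1 {a z : A} (ha : a ≠ 0) (hz : z ≠ 0) (haz : a ≠ H.inv z) :
    Tendsto (fun p : A × A => H.U p.1 p.2) (𝓝 (a, z)) (𝓝 (H.U a z)) := by
  have c1 : Tendsto (fun p : A × A => p.1) (𝓝 (a, z)) (𝓝 a) := continuous_fst.continuousAt
  have c2 : Tendsto (fun p : A × A => p.2) (𝓝 (a, z)) (𝓝 z) := continuous_snd.continuousAt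
  have c3 : Tendsto (fun p : A × A => H.inv p.2) (𝓝 (a, z)) (𝓝 (H.inv z)) :=
    (inv_contAt hc hz).tendsto.comp c2
  have c4 : Tendsto (fun p : A × A => H.inv p.1) (𝓝 (a, z)) (𝓝 (H.inv a)) :=
    (inv_contAt hc ha).tendsto.comp c1
  have hb : a - H.inv z ≠ 0 := sub_ne_zero.mpr haz
  have c5 : Tendsto (fun p : A × A => H.inv (p.1 - H.inv p.2)) (𝓝 (a, z))
      (𝓝 (H.inv (a - H.inv z))) := (inv_contAt hc hb).tendsto.comp (c1.sub c3)
  have hne : H.inv a - H.inv (a - H.inv z) ≠ 0 := by
    intro h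
    have h1 : H.inv a = H.inv (a - H.inv z) := sub_eq_zero.mp h
    have h2 : a = a - H.inv z := by
      have h5 := congrArg H.inv h1
      rwa [H.inv_inv, H.inv_inv] at h5
    apply H.inv_ne z hz
    have h3 : a - (a - H.inv z) = H.inv z := by abel
    rw [← h3, sub_eq_zero]
    exact h2
  have c6 : Tendsto (fun p : A × A => p.1 - H.inv (H.inv p.1 - H.inv (p.1 - H.inv p.2)))
      (𝓝 (a, z)) (𝓝 (a - H.inv (H.inv a - H.inv (a - H.inv z)))) :=
    c1.sub ((inv_contAt hc hne).tendsto.comp (c4.sub c5))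
  rw [← H.U_formula a z ha hz haz] at c6
  refine c6.congr' ?_
  have g1 : ∀ᶠ p : A × A in 𝓝 (a, z), p.1 ≠ 0 := c1.eventually_ne ha
  have g2 : ∀ᶠ p : A × A in 𝓝 (a, z), p.2 ≠ 0 := c2.eventually_ne hz
  have g3 : ∀ᶠ p : A × A in 𝓝 (a, z), p.1 - H.inv p.2 ≠ 0 := (c1.sub c3).eventually_ne hb
  filter_upwards [g1, g2, g3] with p h1 h2 h3
  exact (H.U_formula p.1 p.2 h1 h2 (fun h => h3 (sub_eq_zero.mpr h))).symm

include hc hl0 hl in
theorem U_contAt {a z : A} (ha : a ≠ 0) :
    Tendsto (fun p : A × A => H.U p.1 p.2) (𝓝 (a, z)) (𝓝 (H.U a z)) := by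
  classical
  obtain ⟨z0, hz0⟩ := exists_avoid (H := H) l hl0 hl {0, H.inv a, -z, H.inv a - z}
  simp only [Finset.mem_insert, Finset.mem_singleton, not_or] at hz0
  obtain ⟨k1, k2, k3, k4⟩ := hz0
  have m1 : z + z0 ≠ 0 := by
    intro h; apply k3; rw [eq_neg_iff_add_eq_zero, add_comm]; exact h
  have m2 : a ≠ H.inv (z + z0) := by
    intro h
    apply k4
    rw [h, H.inv_inv]; abel
  have m3 : a ≠ H.inv z0 := by
    intro h
    apply k2
    rw [h, H.inv_inv]
  have c1 : Tendsto (fun p : A × A => p.1) (𝓝 (a, z)) (𝓝 a) := continuous_fst.continuousAt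
  have c2 : Tendsto (fun p : A × A => p.2) (𝓝 (a, z)) (𝓝 z) := continuous_snd.continuousAt
  have t1 : Tendsto (fun p : A × A => H.U p.1 (p.2 + z0)) (𝓝 (a, z)) (𝓝 (H.U a (z + z0))) := by
    have := (U_contAt1 hc ha m1 m2).comp
      (show Tendsto (fun p : A × A => (p.1, p.2 + z0)) (𝓝 (a, z)) (𝓝 (a, z + z0)) from
        c1.prodMk_nhds (c2.add tendsto_const_nhds))
    exact this
  have t2 : Tendsto (fun p : A × A => H.U p.1 z0) (𝓝 (a, z)) (𝓝 (H.U a z0)) := by
    have := (U_contAt1 hc ha k1 m3).comp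
      (show Tendsto (fun p : A × A => (p.1, z0)) (𝓝 (a, z)) (𝓝 (a, z0)) from
        c1.prodMk_nhds tendsto_const_nhds)
    exact this
  have t3 := t1.sub t2
  simp only [map_add, add_sub_cancel_right] at t3
  exact t3

include S hc hl0 hl in
/-- The directional derivative of `w ↦ U (inv w) y'`. -/
theorem deriv1 {w : A} (hw : w ≠ 0) (y y' : A) :
    Tendsto (fun t : K => t⁻¹ • (H.U (H.inv (w + t • y)) y' - H.U (H.inv w) y')) l
      (𝓝 (- H.U (H.inv w) (H.Q y y' (H.inv w)))) := by
  have hiw := H.inv_ne w hw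
  have c0 : Tendsto (fun t : K => w + t • y) l (𝓝 w) := by
    simpa using (tendsto_const_nhds (x := w)).add (hl y)
  have c1 : Tendsto (fun t : K => w + t • y + t • y') l (𝓝 w) := by
    simpa using c0.add (hl y')
  have c2 : Tendsto (fun t : K => H.inv (w + t • y)) l (𝓝 (H.inv w)) :=
    (inv_contAt hc hw).tendsto.comp c0
  have c3 : Tendsto (fun t : K => H.inv (w + t • y + t • y')) l (𝓝 (H.inv w)) :=
    (inv_contAt hc hw).tendsto.comp c1
  have Ufix : ∀ (a : A) (f : K → A) (x : A), Tendsto f l (𝓝 x) →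
      Tendsto (fun t => H.U a (f t)) l (𝓝 (H.U a x)) := by
    intro a f x hf
    by_cases ha : a = 0
    · subst ha
      rw [H.U_zero]
      exact tendsto_const_nhds
    · exact (U_contAt (z := x) hc l hl0 hl ha).comp
        (show Tendsto (fun t => (a, f t)) l (𝓝 (a, x)) from tendsto_const_nhds.prodMk_nhds hf)
  have c4 : Tendsto (fun t : K => H.U (H.inv (w + t • y))
      (H.U y' (H.inv (w + t • y + t • y')))) l (𝓝 (H.U (H.inv w) (H.U y' (H.inv w)))) :=
    (U_contAt (z := H.U y' (H.inv w)) hc l hl0 hl hiw).comp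
      (c2.prodMk_nhds (Ufix y' _ _ c3))
  have c5 : Tendsto (fun t : K => H.U (H.inv w) (H.U y (H.inv (w + t • y)))) l
      (𝓝 (H.U (H.inv w) (H.U y (H.inv w)))) := Ufix _ _ _ (Ufix _ _ _ c2)
  have c6 : Tendsto (fun t : K => H.U (H.inv w) (H.U (y + y') (H.inv (w + t • y + t • y')))) l
      (𝓝 (H.U (H.inv w) (H.U (y + y') (H.inv w)))) := Ufix _ _ _ (Ufix _ _ _ c3)
  have c7 := (c4.add c5).sub c6
  have hlim : H.U (H.inv w) (H.U y' (H.inv w)) + H.U (H.inv w) (H.U y (H.inv w)) -
      H.U (H.inv w) (H.U (y + y') (H.inv w)) = - H.U (H.inv w) (H.Q y y' (H.inv w)) := by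
    unfold Q
    rw [map_sub, map_sub]
    abel
  rw [hlim] at c7
  refine c7.congr' ?_
  filter_upwards [hl0, c0.eventually_ne hw, c1.eventually_ne hw] with t ht h1 h2
  rw [S.key w y y' t ht hw h1 h2, smul_smul, inv_mul_cancel₀ ht, one_smul]

include S hc hl0 hl in
theorem Q_add_right' (y y1 y2 : A) {x : A} (hx : x ≠ 0) :
    H.Q y (y1 + y2) x = H.Q y y1 x + H.Q y y2 x := by
  have hw := H.inv_ne x hx
  have hix := H.inv_ne _ hw
  have d1 := deriv1 S hc l hl0 hl hw y y1
  have d2 := deriv1 S hc l hl0 hl hw y y2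
  have d3 := deriv1 S hc l hl0 hl hw y (y1 + y2)
  have d4 := d1.add d2
  have e : (fun t : K => t⁻¹ • (H.U (H.inv (H.inv x + t • y)) y1 - H.U (H.inv (H.inv x)) y1) +
      t⁻¹ • (H.U (H.inv (H.inv x + t • y)) y2 - H.U (H.inv (H.inv x)) y2)) =
      (fun t : K => t⁻¹ • (H.U (H.inv (H.inv x + t • y)) (y1 + y2) -
        H.U (H.inv (H.inv x)) (y1 + y2))) := by
    funext t
    rw [← smul_add, map_add, map_add]
    congr 1
    abel
  rw [e] at d4
  have h := tendsto_nhds_unique d3 d4
  rw [H.inv_inv] at h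
  have h2 : H.U x (H.Q y (y1 + y2) x) = H.U x (H.Q y y1 x + H.Q y y2 x) := by
    rw [map_add, ← neg_inj, h]; abel
  exact H.U_inj' hx h2

theorem Q_zero_arg (y y' : A) : H.Q y y' 0 = 0 := by
  simp [Q]

include S hc hl0 hl in
theorem Q_add_right (y y1 y2 x : A) :
    H.Q y (y1 + y2) x = H.Q y y1 x + H.Q y y2 x := by
  by_cases hx : x = 0
  · subst hx; simp [Q_zero_arg]
  · exact Q_add_right' S hc l hl0 hl y y1 y2 hx

include S hc hl0 hl in
theorem Q_smul_right (s : K) (y y1 x : A) :
    H.Q y (s • y1) x = s • H.Q y y1 x := by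
  by_cases hx : x = 0
  · subst hx; simp [Q_zero_arg]
  have hw := H.inv_ne x hx
  have hix := H.inv_ne _ hw
  have d1 := (deriv1 S hc l hl0 hl hw y y1).const_smul s
  have d3 := deriv1 S hc l hl0 hl hw y (s • y1)
  have e : (fun t : K => s • (t⁻¹ • (H.U (H.inv (H.inv x + t • y)) y1 -
        H.U (H.inv (H.inv x)) y1))) =
      (fun t : K => t⁻¹ • (H.U (H.inv (H.inv x + t • y)) (s • y1) -
        H.U (H.inv (H.inv x)) (s • y1))) := by
    funext t
    rw [S.U_smul, S.U_smul, ← smul_sub, smul_comm]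
  rw [e] at d1
  have h := tendsto_nhds_unique d3 d1
  rw [H.inv_inv] at h
  have h2 : H.U x (H.Q y (s • y1) x) = H.U x (s • H.Q y y1 x) := by
    rw [S.U_smul, ← neg_inj, h, smul_neg]
  exact H.U_inj' hx h2

include S hc hl0 hl in
/-- Second expression of the derivative; the identity relating the two. -/
theorem Q_swap {w : A} (hw : w ≠ 0) (y y' : A) :
    H.Q y y' (H.inv w) = H.Q w y (H.U (H.inv w) y') := by
  have hiw := H.inv_ne w hw
  have d1 := deriv1 S hc l hl0 hl hw y y'
  have c0 : Tendsto (fun t : K => w + t • y) l (𝓝 w) := by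
    simpa using (tendsto_const_nhds (x := w)).add (hl y)
  have c2 : Tendsto (fun t : K => H.inv (w + t • y)) l (𝓝 (H.inv w)) :=
    (inv_contAt hc hw).tendsto.comp c0
  set c := H.U (H.inv w) y' with hcdef
  have c3 : Tendsto (fun t : K => H.U (H.inv (w + t • y)) (H.Q w y c + t • H.U y c)) l
      (𝓝 (H.U (H.inv w) (H.Q w y c))) := by
    refine (U_contAt (z := H.Q w y c) hc l hl0 hl hiw).comp (c2.prodMk_nhds ?_)
    simpa using (tendsto_const_nhds (x := H.Q w y c)).add (hl (H.U y c))
  have d2 : Tendsto (fun t : K => t⁻¹ • (H.U (H.inv (w + t • y)) y' - H.U (H.inv w) y')) l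
      (𝓝 (- H.U (H.inv w) (H.Q w y c))) := by
    refine c3.neg.congr' ?_
    filter_upwards [hl0, c0.eventually_ne hw] with t ht h1
    have hU : H.U (w + t • y) c = y' + t • H.Q w y c + (t * t) • H.U y c := by
      have k1 : H.Q w (t • y) c = t • H.Q w y c := Q_smul_right S hc l hl0 hl t w y c
      unfold Q at k1 ⊢
      rw [S.U_smul_left t y c] at k1
      have k2 : H.U w c = y' := by rw [hcdef, H.U_inv_right w y' hw]
      rw [k2] at k1 ⊢
      rw [← k1]
      abel
    have e1 : c = H.U (H.inv (w + t • y)) (H.U (w + t • y) c) :=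
      (H.U_inv_left _ _ h1).symm
    have e2 : H.U (H.inv (w + t • y)) y' - c =
        - (t • H.U (H.inv (w + t • y)) (H.Q w y c + t • H.U y c)) := by
      have e3 : c = H.U (H.inv (w + t • y)) y' +
          t • H.U (H.inv (w + t • y)) (H.Q w y c + t • H.U y c) := by
        rw [← S.U_smul, ← map_add, smul_add, smul_smul, ← add_assoc, ← hU]
        exact e1
      calc H.U (H.inv (w + t • y)) y' - c = H.U (H.inv (w + t • y)) y' -
            (H.U (H.inv (w + t • y)) y' +
          t • H.U (H.inv (w + t • y)) (H.Q w y c + t • H.U y c)) := by rw [← e3]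
        _ = _ := by abel
    rw [e2, smul_neg, smul_smul, inv_mul_cancel₀ ht, one_smul]
  have h := tendsto_nhds_unique d1 d2
  exact H.U_inj' hiw (neg_inj.mp h)

include S hc hl0 hl in
/-- The first Jordan identity. -/
theorem jordan1 (a b c : A) : H.U a (H.Q b c a) = H.Q a (H.U a c) b := by
  by_cases ha : a = 0
  · subst ha
    simp [Q, H.U_zero]
  have h1 := Q_swap S hc l hl0 hl ha (H.U a c) (H.U a b)
  rw [H.U_inv_left a b ha] at h1
  rw [← h1, H.Q_comm (H.U a c) (H.U a b)]
  have h2 : ∀ x y z : A, H.Q (H.U a x) (H.U a y) z = H.U a (H.Q x y (H.U a z)) := by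
    intro x y z
    unfold Q
    rw [← map_add, H.U_U, H.U_U, H.U_U, map_sub, map_sub]
  rw [h2, H.U_self]

end Topological

end HD

end Pool.Agent.HuaTop84
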