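import Mathlib

/-!
Hua systems and quadratic Jordan division rings: definitions used in the statements.
-/

set_option autoImplicit false

open scoped TensorProduct

namespace Pool.Agent.HuaTop84

/-- `j` makes the abelian group `A` a Hua system (axioms HS1, HS2, HS3 of the problem file);
`some b` is the element `b` and `none` is the point at infinity. -/
def IsHuaSystem {A : Type} [AddCommGroup A] (j : A → Option A → Option A) : Prop :=
  (∀ a : A, a ≠ 0 → (∀ x : Option A, j a (j a x) = x) ∧ j a (some a) = some a ∧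
      j a (some (-a)) = some (-a) ∧ j a (some 0) = none) ∧
  (∀ a : A, a ≠ 0 → ∀ x : Option A,
      Option.map (fun b => a - b) (j a (Option.map (fun b => a - b)
        (j a (Option.map (fun b => a - b) (j a x))))) = x) ∧
  (∀ a b : A, a ≠ 0 → b ≠ 0 → ∃ f : A →+ A, ∀ x : A, j a (j b (some x)) = some (f x))

/-- The identities of a unital quadratic Jordan algebra over `R`, for the unit `one` and the
quadratic map `U`: `U 1 = id`, `U_a V_{b,a} = V_{a,b} U_a` and `U_{U_a b} = U_a U_b U_a`. -/
def JordanIdentities {R M : Type} [CommRing R] [AddCommGroup M] [Module R M] (one : M)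
    (U : QuadraticMap R M (Module.End R M)) : Prop :=
  U one = 1 ∧
  (∀ a b c : M, U a ((QuadraticMap.polar (⇑U) b c) a) = (QuadraticMap.polar (⇑U) a (U a c)) b) ∧
  (∀ a b : M, U (U a b) = U a * U b * U a)

/-- `(A, U, one)` is a quadratic Jordan algebra over the integers: the identities hold, and they
hold for every extension of `U` to `Ω ⊗ A`, for every commutative ring `Ω`. -/
def IsJordanRing {A : Type} [AddCommGroup A] (one : A)
    (U : QuadraticMap ℤ A (Module.End ℤ A)) : Prop :=
  JordanIdentities one U ∧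
  ∀ (Ω : Type) [CommRing Ω] (U' : QuadraticMap Ω (Ω ⊗[ℤ] A) (Module.End Ω (Ω ⊗[ℤ] A))),
    (∀ (a c : A) (ω : Ω), U' ((1 : Ω) ⊗ₜ[ℤ] a) (ω ⊗ₜ[ℤ] c) = ω ⊗ₜ[ℤ] (U a c)) →
    JordanIdentities ((1 : Ω) ⊗ₜ[ℤ] one) U'

/-- The Hua system `j` arises from a quadratic Jordan division ring on `A`: all `U a` with `a ≠ 0`
are bijective, and `j a b = U_a (b⁻¹)` where `b⁻¹` is the element `c` with `U_b c = b`. -/
def ArisesFromJordan {A : Type} [AddCommGroup A] (j : A → Option A → Option A) : Prop :=
  ∃ (one : A) (U : QuadraticMap ℤ A (Module.End ℤ A)), IsJordanRing one U ∧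
    (∀ a : A, a ≠ 0 → Function.Bijective (U a)) ∧
    (∀ a b c : A, a ≠ 0 → b ≠ 0 → U b c = b → j a (some b) = some (U a c))

end Pool.Agent.HuaTop84
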