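import Mathlib

/-!
Strictness: if `A` is a vector space over an infinite field and a quadratic map
`U : A → End A` is compatible with the scalars, then identities of Jordan type
that hold on `A` hold after every scalar extension.
-/

set_option autoImplicit false

open scoped TensorProduct

namespace Pool.Agent.HuaTop84

section Strict

variable {K : Type} [Field K] {A : Type} [AddCommGroup A] [Module K A]
variable {Ω : Type} [CommRing Ω]

/-- Evaluation of a monomial. -/
noncomputable def wt (m : Ω →₀ ℕ) : Ω := m.prod (fun w k => w ^ k)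

theorem wt_add (m m' : Ω →₀ ℕ) : wt (m + m') = wt m * wt m' := by
  classical
  unfold wt
  rw [Finsupp.prod_add_index']
  · intro a; simp
  · intro a b c; rw [pow_add]

/-- Evaluation of a monomial at a point of `K ^ Ω`. -/
noncomputable def wk (t : Ω → K) (m : Ω →₀ ℕ) : K := m.prod (fun w k => t w ^ k)

theorem wk_add (t : Ω → K) (m m' : Ω →₀ ℕ) : wk t (m + m') = wk t m * wk t m' := by
  classical
  unfold wk
  rw [Finsupp.prod_add_index']
  · intro a; simp
  · intro a b c; rw [pow_add]

/-- Formal polynomials with coefficients in `A`, evaluated in `Ω ⊗ A`. -/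
noncomputable def evO : ((Ω →₀ ℕ) →₀ A) →+ (Ω ⊗[ℤ] A) :=
  Finsupp.liftAddHom (fun m => (TensorProduct.mk ℤ Ω A (wt m)).toAddMonoidHom)

/-- Formal polynomials with coefficients in `A`, evaluated in `A`. -/
noncomputable def evK (t : Ω → K) : ((Ω →₀ ℕ) →₀ A) →+ A :=
  Finsupp.liftAddHom (fun m => (DistribSMul.toAddMonoidHom A (wk t m)))

theorem evO_single (m : Ω →₀ ℕ) (a : A) :
    evO (Finsupp.single m a) = wt m ⊗ₜ[ℤ] a := by
  simp [evO]

theorem evK_single (t : Ω → K) (m : Ω →₀ ℕ) (a : A) :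
    evK t (Finsupp.single m a) = wk t m • a := by
  simp [evK]

theorem evO_surj (x : Ω ⊗[ℤ] A) : ∃ p : (Ω →₀ ℕ) →₀ A, evO p = x := by
  induction x using TensorProduct.induction_on with
  | zero => exact ⟨0, map_zero _⟩
  | tmul w a =>
    refine ⟨Finsupp.single (Finsupp.single w 1) a, ?_⟩
    rw [evO_single]
    congr 1
    unfold wt
    rw [Finsupp.prod_single_index] <;> simp
  | add x y hx hy =>
    obtain ⟨p, hp⟩ := hx
    obtain ⟨q, hq⟩ := hy
    exact ⟨p + q, by rw [map_add, hp, hq]⟩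

theorem evK_inj [Infinite K] (r : (Ω →₀ ℕ) →₀ A) (h : ∀ t : Ω → K, evK t r = 0) : r = 0 := by
  classical
  have key : ∀ f : Module.Dual K A, ∀ m, f (r m) = 0 := by
    intro f m
    set p : MvPolynomial Ω K := ∑ m ∈ r.support, MvPolynomial.monomial m (f (r m)) with hp
    have hp0 : p = 0 := by
      apply MvPolynomial.funext
      intro t
      rw [map_zero, hp, map_sum]
      have h1 : ∑ m ∈ r.support, MvPolynomial.eval t (MvPolynomial.monomial m (f (r m))) =
          f (evK t r) := by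
        have h2 : evK t r = ∑ m ∈ r.support, wk t m • r m := by
          conv_lhs => rw [← Finsupp.sum_single r]
          unfold Finsupp.sum
          rw [map_sum]
          refine Finset.sum_congr rfl (fun m _ => ?_)
          rw [evK_single]
        rw [h2, map_sum]
        refine Finset.sum_congr rfl (fun m _ => ?_)
        rw [MvPolynomial.eval_monomial, map_smul, smul_eq_mul, mul_comm]
        rfl
      rw [h1, h t, map_zero]
    have h3 : MvPolynomial.coeff m p = f (r m) := by
      rw [hp, MvPolynomial.coeff_sum]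
      simp only [MvPolynomial.coeff_monomial]
      rw [Finset.sum_ite_eq']
      split_ifs with hm
      · rfl
      · rw [Finsupp.notMem_support_iff.mp hm, map_zero]
    rw [← h3, hp0, MvPolynomial.coeff_zero]
  ext m
  rw [Finsupp.zero_apply]
  exact (Module.forall_dual_apply_eq_zero_iff K (r m)).mp (fun f => key f m)

variable (U : QuadraticMap ℤ A (Module.End ℤ A))
  (hUl : ∀ (s : K) (a c : A), U (s • a) c = (s * s) • U a c)
  (hUr : ∀ (s : K) (a c : A), U a (s • c) = s • U a c)
  (hP : ∀ (s : K) (a b c : A), QuadraticMap.polar (⇑U) a (s • b) c =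
    s • QuadraticMap.polar (⇑U) a b c)
  (U' : QuadraticMap Ω (Ω ⊗[ℤ] A) (Module.End Ω (Ω ⊗[ℤ] A)))
  (hU' : ∀ (a c : A) (ω : Ω), U' ((1 : Ω) ⊗ₜ[ℤ] a) (ω ⊗ₜ[ℤ] c) = ω ⊗ₜ[ℤ] (U a c))

theorem tmul_eq_smul (w : Ω) (a : A) : w ⊗ₜ[ℤ] a = w • ((1 : Ω) ⊗ₜ[ℤ] a) := by
  rw [TensorProduct.smul_tmul', smul_eq_mul, mul_one]

theorem polar_comm' (a b c : A) :
    QuadraticMap.polar (⇑U) a b c = QuadraticMap.polar (⇑U) b a c := by
  rw [QuadraticMap.polar_comm]

include hUr hP in
theorem polar_smul3 (s s' s'' : K) (a b c : A) :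
    QuadraticMap.polar (⇑U) (s • a) (s' • b) (s'' • c) =
      (s * s' * s'') • QuadraticMap.polar (⇑U) a b c := by
  have h1 : ∀ (s : K) (a b c : A), QuadraticMap.polar (⇑U) a b (s • c) =
      s • QuadraticMap.polar (⇑U) a b c := by
    intro s a b c
    simp only [QuadraticMap.polar, LinearMap.sub_apply, hUr, smul_sub]
  rw [hP, polar_comm', hP, h1, polar_comm', smul_smul, smul_smul]
  congr 1
  ring

include hU' in
theorem polar_tmul (w w' w'' : Ω) (a b c : A) :
    QuadraticMap.polar (⇑U') (w ⊗ₜ[ℤ] a) (w' ⊗ₜ[ℤ] b) (w'' ⊗ₜ[ℤ] c) =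
      (w * w' * w'') ⊗ₜ[ℤ] (QuadraticMap.polar (⇑U) a b c) := by
  rw [tmul_eq_smul w a, tmul_eq_smul w' b, QuadraticMap.polar_smul_left,
    QuadraticMap.polar_smul_right]
  have h1 : QuadraticMap.polar (⇑U') ((1 : Ω) ⊗ₜ[ℤ] a) ((1 : Ω) ⊗ₜ[ℤ] b) (w'' ⊗ₜ[ℤ] c) =
      w'' ⊗ₜ[ℤ] (QuadraticMap.polar (⇑U) a b c) := by
    simp only [QuadraticMap.polar, LinearMap.sub_apply]
    rw [← TensorProduct.tmul_add, hU', hU', hU', TensorProduct.tmul_sub, TensorProduct.tmul_sub]
  rw [LinearMap.smul_apply, LinearMap.smul_apply, h1, smul_smul, TensorProduct.smul_tmul',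
    smul_eq_mul]

include hUr hP hU' in
theorem exists_polar (p q s : (Ω →₀ ℕ) →₀ A) : ∃ r : (Ω →₀ ℕ) →₀ A,
    evO r = QuadraticMap.polar (⇑U') (evO p) (evO q) (evO s) ∧
    ∀ t : Ω → K, evK t r = QuadraticMap.polar (⇑U) (evK t p) (evK t q) (evK t s) := by
  induction p using Finsupp.induction_linear with
  | zero =>
    refine ⟨0, ?_, fun t => ?_⟩
    · rw [map_zero, QuadraticMap.polar_zero_left, LinearMap.zero_apply]
    · rw [map_zero, QuadraticMap.polar_zero_left, LinearMap.zero_apply]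
  | add p1 p2 h1 h2 =>
    obtain ⟨r1, k1, l1⟩ := h1
    obtain ⟨r2, k2, l2⟩ := h2
    refine ⟨r1 + r2, ?_, fun t => ?_⟩
    · rw [map_add, map_add, QuadraticMap.polar_add_left, LinearMap.add_apply, k1, k2]
    · rw [map_add, map_add, QuadraticMap.polar_add_left, LinearMap.add_apply, l1, l2]
  | single m a =>
    induction q using Finsupp.induction_linear with
    | zero =>
      refine ⟨0, ?_, fun t => ?_⟩
      · rw [map_zero, QuadraticMap.polar_zero_right, LinearMap.zero_apply]
      · rw [map_zero, QuadraticMap.polar_zero_right, LinearMap.zero_apply]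
    | add p1 p2 h1 h2 =>
      obtain ⟨r1, k1, l1⟩ := h1
      obtain ⟨r2, k2, l2⟩ := h2
      refine ⟨r1 + r2, ?_, fun t => ?_⟩
      · rw [map_add, map_add, QuadraticMap.polar_add_right, LinearMap.add_apply, k1, k2]
      · rw [map_add, map_add, QuadraticMap.polar_add_right, LinearMap.add_apply, l1, l2]
    | single m' b =>
      induction s using Finsupp.induction_linear with
      | zero =>
        refine ⟨0, ?_, fun t => ?_⟩
        · rw [map_zero, map_zero]
        · rw [map_zero, map_zero]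
      | add p1 p2 h1 h2 =>
        obtain ⟨r1, k1, l1⟩ := h1
        obtain ⟨r2, k2, l2⟩ := h2
        refine ⟨r1 + r2, ?_, fun t => ?_⟩
        · rw [map_add, map_add, map_add, k1, k2]
        · rw [map_add, map_add, map_add, l1, l2]
      | single m'' c =>
        refine ⟨Finsupp.single (m + m' + m'') (QuadraticMap.polar (⇑U) a b c), ?_, fun t => ?_⟩
        · rw [evO_single, evO_single, evO_single, evO_single, polar_tmul U U' hU', wt_add, wt_add]
        · rw [evK_single, evK_single, evK_single, evK_single,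
            polar_smul3 U hUr hP, wk_add, wk_add]

include hUl hUr hP hU' in
theorem exists_U (p s : (Ω →₀ ℕ) →₀ A) : ∃ r : (Ω →₀ ℕ) →₀ A,
    evO r = U' (evO p) (evO s) ∧ ∀ t : Ω → K, evK t r = U (evK t p) (evK t s) := by
  induction p using Finsupp.induction_linear with
  | zero =>
    refine ⟨0, ?_, fun t => ?_⟩
    · rw [map_zero, QuadraticMap.map_zero, LinearMap.zero_apply]
    · rw [map_zero, QuadraticMap.map_zero, LinearMap.zero_apply]
  | add p1 p2 h1 h2 =>
    obtain ⟨r1, k1, l1⟩ := h1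
    obtain ⟨r2, k2, l2⟩ := h2
    obtain ⟨r3, k3, l3⟩ := exists_polar U hUr hP U' hU' p1 p2 s
    refine ⟨r1 + r2 + r3, ?_, fun t => ?_⟩
    · rw [map_add, map_add, map_add, QuadraticMap.map_add (⇑U'), LinearMap.add_apply,
        LinearMap.add_apply, k1, k2, k3]
    · rw [map_add, map_add, map_add, QuadraticMap.map_add (⇑U), LinearMap.add_apply,
        LinearMap.add_apply, l1, l2, l3]
  | single m a =>
    induction s using Finsupp.induction_linear with
    | zero =>
      refine ⟨0, ?_, fun t => ?_⟩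
      · rw [map_zero, map_zero]
      · rw [map_zero, map_zero]
    | add p1 p2 h1 h2 =>
      obtain ⟨r1, k1, l1⟩ := h1
      obtain ⟨r2, k2, l2⟩ := h2
      refine ⟨r1 + r2, ?_, fun t => ?_⟩
      · rw [map_add, map_add, map_add, k1, k2]
      · rw [map_add, map_add, map_add, l1, l2]
    | single m' c =>
      refine ⟨Finsupp.single (m + m + m') (U a c), ?_, fun t => ?_⟩
      · rw [evO_single, evO_single, evO_single, wt_add, wt_add, tmul_eq_smul (wt m) a,
          QuadraticMap.map_smul, LinearMap.smul_apply, hU', TensorProduct.smul_tmul', smul_eq_mul]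
      · rw [evK_single, evK_single, evK_single, wk_add, wk_add, hUl, hUr, smul_smul]

include hUl hUr hP hU' in
/-- The first Jordan identity after scalar extension. -/
theorem strict1 [Infinite K]
    (hJ : ∀ a b c : A, U a ((QuadraticMap.polar (⇑U) b c) a) =
      (QuadraticMap.polar (⇑U) a (U a c)) b) (x y z : Ω ⊗[ℤ] A) :
    U' x ((QuadraticMap.polar (⇑U') y z) x) = (QuadraticMap.polar (⇑U') x (U' x z)) y := by
  obtain ⟨p, rfl⟩ := evO_surj x
  obtain ⟨q, rfl⟩ := evO_surj y
  obtain ⟨s, rfl⟩ := evO_surj z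
  obtain ⟨r1, k1, l1⟩ := exists_polar (K := K) U hUr hP U' hU' q s p
  obtain ⟨r2, k2, l2⟩ := exists_U (K := K) U hUl hUr hP U' hU' p r1
  obtain ⟨r3, k3, l3⟩ := exists_U (K := K) U hUl hUr hP U' hU' p s
  obtain ⟨r4, k4, l4⟩ := exists_polar (K := K) U hUr hP U' hU' p r3 q
  rw [← k1, ← k2, ← k3, ← k4]
  congr 1
  rw [← sub_eq_zero]
  apply evK_inj (K := K)
  intro t
  rw [map_sub, l2, l1, l4, l3, hJ, sub_self]

include hUl hUr hP hU' in
/-- The fundamental formula after scalar extension. -/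
theorem strict2 [Infinite K] (hF : ∀ a b c : A, U (U a b) c = U a (U b (U a c)))
    (x y : Ω ⊗[ℤ] A) : U' (U' x y) = U' x * U' y * U' x := by
  apply LinearMap.ext
  intro z
  rw [Module.End.mul_apply, Module.End.mul_apply]
  obtain ⟨p, rfl⟩ := evO_surj x
  obtain ⟨q, rfl⟩ := evO_surj y
  obtain ⟨s, rfl⟩ := evO_surj z
  obtain ⟨r1, k1, l1⟩ := exists_U (K := K) U hUl hUr hP U' hU' p q
  obtain ⟨r2, k2, l2⟩ := exists_U (K := K) U hUl hUr hP U' hU' r1 s
  obtain ⟨r3, k3, l3⟩ := exists_U (K := K) U hUl hUr hP U' hU' p s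
  obtain ⟨r4, k4, l4⟩ := exists_U (K := K) U hUl hUr hP U' hU' q r3
  obtain ⟨r5, k5, l5⟩ := exists_U (K := K) U hUl hUr hP U' hU' p r4
  rw [← k1, ← k2, ← k3, ← k4, ← k5]
  congr 1
  rw [← sub_eq_zero]
  apply evK_inj (K := K)
  intro t
  rw [map_sub, l2, l1, l5, l4, l3, hF, sub_self]

include hU' in
theorem strict0 (one : A) (h1 : U one = 1) : U' ((1 : Ω) ⊗ₜ[ℤ] one) = 1 := by
  apply LinearMap.ext
  intro x
  rw [Module.End.one_apply]
  induction x using TensorProduct.induction_on with
  | zero => rw [map_zero]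
  | tmul w a => rw [hU', h1, Module.End.one_apply]
  | add x y hx hy => rw [map_add, hx, hy]

end Strict

end Pool.Agent.HuaTop84
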