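import Mathlib
import Pool.Agent.HuaTop84.Topo
import Pool.Agent.HuaTop84.Strict

/-!
Assembly of the quadratic Jordan structure.
-/

set_option autoImplicit false

open Filter Topology
open scoped TensorProduct

namespace Pool.Agent.HuaTop84

namespace HD

variable {A : Type} [AddCommGroup A] {H : HD A}
variable {K : Type} [Field K] [Module K A] (S : H.Scal K)
variable [TopologicalSpace A] [IsTopologicalAddGroup A] [T2Space A] [ContinuousConstSMul K A]
variable (hc : ContinuousOn H.inv {0}ᶜ)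
variable (l : Filter K) [l.NeBot] (hl0 : ∀ᶠ t in l, t ≠ 0)
  (hl : ∀ x : A, Tendsto (fun t : K => t • x) l (𝓝 0))

include S in
theorem Scal.U_zsmul_left (n : ℤ) (a x : A) : H.U (n • a) x = (n * n) • H.U a x := by
  rw [← Int.cast_smul_eq_zsmul K n a, S.U_smul_left, ← Int.cast_mul,
    Int.cast_smul_eq_zsmul]

/-- The quadratic map. -/
noncomputable def UQ : QuadraticMap ℤ A (Module.End ℤ A) :=
  QuadraticMap.ofPolar (fun a => (H.U a).toIntLinearMap)
    (fun n a => by
      apply LinearMap.ext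
      intro x
      change H.U (n • a) x = (n * n) • H.U a x
      exact S.U_zsmul_left n a x)
    (fun a a' b => by
      apply LinearMap.ext
      intro x
      change H.Q (a + a') b x = H.Q a b x + H.Q a' b x
      rw [H.Q_comm, Q_add_right S hc l hl0 hl, H.Q_comm b a, H.Q_comm b a'])
    (fun n a b => by
      apply LinearMap.ext
      intro x
      change H.Q (n • a) b x = n • H.Q a b x
      rw [H.Q_comm, ← Int.cast_smul_eq_zsmul K n a, Q_smul_right S hc l hl0 hl, H.Q_comm b a,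
        Int.cast_smul_eq_zsmul])

theorem UQ_apply (a x : A) : UQ S hc l hl0 hl a x = H.U a x := rfl

theorem UQ_polar (a b x : A) : QuadraticMap.polar (⇑(UQ S hc l hl0 hl)) a b x = H.Q a b x := rfl

include S hc l hl0 hl in
theorem main : ∃ U : QuadraticMap ℤ A (Module.End ℤ A),
    (∀ a x, U a x = H.U a x) ∧
    U H.one = 1 ∧
    (∀ a b c : A, U a ((QuadraticMap.polar (⇑U) b c) a) = (QuadraticMap.polar (⇑U) a (U a c)) b) ∧
    (∀ a b : A, U (U a b) = U a * U b * U a) ∧
    (∀ (Ω : Type) [CommRing Ω] (U' : QuadraticMap Ω (Ω ⊗[ℤ] A) (Module.End Ω (Ω ⊗[ℤ] A))),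
        (∀ (a c : A) (ω : Ω), U' ((1 : Ω) ⊗ₜ[ℤ] a) (ω ⊗ₜ[ℤ] c) = ω ⊗ₜ[ℤ] (U a c)) →
        (U' ((1 : Ω) ⊗ₜ[ℤ] H.one) = 1 ∧
         (∀ x y z : Ω ⊗[ℤ] A,
            U' x ((QuadraticMap.polar (⇑U') y z) x) = (QuadraticMap.polar (⇑U') x (U' x z)) y) ∧
         (∀ x y : Ω ⊗[ℤ] A, U' (U' x y) = U' x * U' y * U' x))) ∧
    (∀ a : A, a ≠ 0 → Function.Bijective (U a)) := by
  haveI : Infinite K := infinite_of_tendsto (H := H) l hl0 hl
  have hone : UQ S hc l hl0 hl H.one = 1 := by
    apply LinearMap.ext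
    intro x
    rw [UQ_apply, H.U_one, Module.End.one_apply]
  have hJ : ∀ a b c : A, UQ S hc l hl0 hl a ((QuadraticMap.polar (⇑(UQ S hc l hl0 hl)) b c) a) =
      (QuadraticMap.polar (⇑(UQ S hc l hl0 hl)) a (UQ S hc l hl0 hl a c)) b := by
    intro a b c
    rw [UQ_polar, UQ_polar, UQ_apply, UQ_apply]
    exact jordan1 S hc l hl0 hl a b c
  have hF : ∀ a b c : A, UQ S hc l hl0 hl (UQ S hc l hl0 hl a b) c =
      UQ S hc l hl0 hl a (UQ S hc l hl0 hl b (UQ S hc l hl0 hl a c)) := by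
    intro a b c
    simp only [UQ_apply]
    exact H.U_U a b c
  have hUl : ∀ (s : K) (a c : A), UQ S hc l hl0 hl (s • a) c =
      (s * s) • UQ S hc l hl0 hl a c := by
    intro s a c
    simp only [UQ_apply]
    exact S.U_smul_left s a c
  have hUr : ∀ (s : K) (a c : A), UQ S hc l hl0 hl a (s • c) = s • UQ S hc l hl0 hl a c := by
    intro s a c
    simp only [UQ_apply]
    exact S.U_smul a s c
  have hP : ∀ (s : K) (a b c : A), QuadraticMap.polar (⇑(UQ S hc l hl0 hl)) a (s • b) c =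
      s • QuadraticMap.polar (⇑(UQ S hc l hl0 hl)) a b c := by
    intro s a b c
    rw [UQ_polar, UQ_polar]
    exact Q_smul_right S hc l hl0 hl s a b c
  refine ⟨UQ S hc l hl0 hl, fun a x => rfl, hone, hJ, ?_, ?_, ?_⟩
  · intro a b
    apply LinearMap.ext
    intro x
    rw [Module.End.mul_apply, Module.End.mul_apply]
    exact hF a b x
  · intro Ω _ U' hU'
    exact ⟨strict0 (UQ S hc l hl0 hl) U' hU' H.one hone,
      fun x y z => strict1 (K := K) (UQ S hc l hl0 hl) hUl hUr hP U' hU' hJ x y z,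
      fun x y => strict2 (K := K) (UQ S hc l hl0 hl) hUl hUr hP U' hU' hF x y⟩
  · intro a ha
    constructor
    · intro x y hxy
      exact H.U_inj' ha hxy
    · intro y
      exact ⟨H.U (H.inv a) y, H.U_inv_right a y ha⟩

end HD

end Pool.Agent.HuaTop84
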